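import Pool.Agent.Helper68.Dom.Goals

/-!
Low vertices in the components.
-/

namespace NApexGraphs.Dom.Helper70

open SimpleGraph NApexGraphs NApexGraphs.Dom

theorem gLOWN (hL : Goals.LOWV) (hD : Goals.DEG3) : Goals.LOWN := by
  classical
  intro V _ G n u x p q X h C hC
  have hO : ∀ v ∈ Rest u x X, v ∉ X ∧ v ≠ u ∧ v ≠ x := fun v hv => hv
  have hadj : ∀ a b : V, (G.deleteEdges {s(u, x)}).Adj a b ↔
      G.Adj a b ∧ ¬ (s(a, b) = s(u, x)) := by
    intro a b
    rw [deleteEdges_adj, Set.mem_singleton_iff]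
  have hne : ∀ a b : V, b ≠ u → b ≠ x → ¬ (s(a, b) = s(u, x)) := by
    intro a b h1 h2 h3
    rw [Sym2.eq_iff] at h3
    rcases h3 with ⟨-, h3⟩ | ⟨-, h3⟩
    · exact h2 h3
    · exact h1 h3
  obtain ⟨hp1, hp2, hp3⟩ := hO p h.hp
  obtain ⟨hq1, hq2, hq3⟩ := hO q h.hq
  have hCO : C ⊆ Rest u x X := fun v hv => (hC.sub hv).1
  have hpC : p ∉ C := fun hp => (hC.sub hp).2 (Or.inl rfl)
  have hqC : q ∉ C := fun hq => (hC.sub hq).2 (Or.inr rfl)
  obtain ⟨r, hr, hlow⟩ := hL V (G.deleteEdges {s(u, x)}) ((X : Set V)ᶜ) (Rest u x X) C u x p q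
    h.ps.pl.1 h.ps.hu h.ps.hx (fun v hv => (hO v hv).1) (fun hu => (hO u hu).2.1 rfl)
    (fun hx => (hO x hx).2.2 rfl) h.xu.symm
    (fun v hv => (hadj u v).2 ⟨h.set.dom v (hO v hv).2.1, hne u v (hO v hv).2.1 (hO v hv).2.2⟩)
    h.hp h.hq hpC hqC ((hadj x p).2 ⟨(h.nx p).2 (Or.inr (Or.inr (Or.inl rfl))), hne x p hp2 hp3⟩)
    ((hadj x q).2 ⟨(h.nx q).2 (Or.inr (Or.inr (Or.inr rfl))), hne x q hq2 hq3⟩) hCO hC.conn.1
    (by
      intro v hv y hy hvy
      by_cases hyp : y = p
      · exact Or.inr (Or.inl hyp)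
      · by_cases hyq : y = q
        · exact Or.inr (Or.inr hyq)
        · left
          refine hC.closed v hv y ⟨hy, ?_⟩ ((hadj v y).1 hvy).1
          rintro (h1 | h1)
          · exact hyp h1
          · exact hyq h1)
  obtain ⟨hr1, hr2, hr3⟩ := hO r (hCO hr)
  have hrx : ¬ G.Adj r x := by
    intro h1
    rcases (h.nx r).1 h1.symm with h2 | h2 | h2 | h2
    · exact hr1 h2
    · exact hr2 h2
    · exact hpC (h2 ▸ hr)
    · exact hqC (h2 ▸ hr)
  have hlow' : ∀ a ∈ Rest u x X, ∀ b ∈ Rest u x X, ∀ c ∈ Rest u x X, G.Adj r a → G.Adj r b →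
      G.Adj r c → a = b ∨ a = c ∨ b = c := by
    intro a ha b hb c hc h1 h2 h3
    exact hlow a ha b hb c hc ((hadj r a).2 ⟨h1, hne r a (hO a ha).2.1 (hO a ha).2.2⟩)
      ((hadj r b).2 ⟨h2, hne r b (hO b hb).2.1 (hO b hb).2.2⟩)
      ((hadj r c).2 ⟨h3, hne r c (hO c hc).2.1 (hO c hc).2.2⟩)
  have hdeg : n + 3 ≤ (G.neighborSet r).ncard := hD V G n u r h.set hr2
  have hcard : X.card = n := h.ps.card
  have hcase : ∀ z, G.Adj r z → z ∈ X ∨ z = u ∨ z ∈ Rest u x X := by
    intro z hz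
    by_cases h1 : z ∈ X
    · exact Or.inl h1
    · by_cases h2 : z = u
      · exact Or.inr (Or.inl h2)
      · refine Or.inr (Or.inr ⟨h1, h2, ?_⟩)
        rintro rfl
        exact hrx hz
  -- two neighbours in the rest
  obtain ⟨c, d, hc, hd, hcd, hrc, hrd⟩ : ∃ c d, c ∈ Rest u x X ∧ d ∈ Rest u x X ∧ c ≠ d ∧
      G.Adj r c ∧ G.Adj r d := by
    by_contra hcon
    push Not at hcon
    have hsub : ∃ c, G.neighborSet r ⊆ ((insert u (insert c X) : Finset V) : Set V) := by
      by_cases hex : ∃ c, c ∈ Rest u x X ∧ G.Adj r c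
      · obtain ⟨c, hc, hrc⟩ := hex
        refine ⟨c, fun z hz => ?_⟩
        rw [Finset.mem_coe, Finset.mem_insert, Finset.mem_insert]
        rcases hcase z hz with h1 | h1 | h1
        · exact Or.inr (Or.inr h1)
        · exact Or.inl h1
        · right; left
          by_contra hzc
          exact hcon z c h1 hc hzc hz hrc
      · refine ⟨u, fun z hz => ?_⟩
        rw [Finset.mem_coe, Finset.mem_insert, Finset.mem_insert]
        rcases hcase z hz with h1 | h1 | h1
        · exact Or.inr (Or.inr h1)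
        · exact Or.inl h1
        · exact absurd ⟨z, h1, hz⟩ hex
    obtain ⟨c, hsub⟩ := hsub
    have h1 := Set.ncard_le_ncard hsub (Finset.finite_toSet _)
    rw [Set.ncard_coe_finset] at h1
    have h2 := Finset.card_insert_le u (insert c X)
    have h3 := Finset.card_insert_le c X
    omega
  have hcase' : ∀ z, G.Adj r z → z ∈ X ∨ z = u ∨ z = c ∨ z = d := by
    intro z hz
    rcases hcase z hz with h1 | h1 | h1
    · exact Or.inl h1
    · exact Or.inr (Or.inl h1)
    · rcases hlow' z h1 c hc d hd hz hrc hrd with h2 | h2 | h2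
      · exact Or.inr (Or.inr (Or.inl h2))
      · exact Or.inr (Or.inr (Or.inr h2))
      · exact absurd h2 hcd
  refine ⟨r, hr, c, d, hcd, hc, hd, fun z => ⟨hcase' z, ?_⟩⟩
  rintro (hz | rfl | rfl | rfl)
  · by_contra hrz
    have hsub : G.neighborSet r ⊆
        ((insert u (insert c (insert d (X.erase z))) : Finset V) : Set V) := by
      intro y hy
      simp only [Finset.coe_insert, Set.mem_insert_iff, Finset.mem_coe, Finset.mem_erase]
      rcases hcase' y hy with h1 | h1 | h1 | h1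
      · right; right; right
        refine ⟨?_, h1⟩
        rintro rfl
        exact hrz hy
      · exact Or.inl h1
      · exact Or.inr (Or.inl h1)
      · exact Or.inr (Or.inr (Or.inl h1))
    have h1 := Set.ncard_le_ncard hsub (Finset.finite_toSet _)
    rw [Set.ncard_coe_finset] at h1
    have h2 := Finset.card_insert_le u (insert c (insert d (X.erase z)))
    have h3 := Finset.card_insert_le c (insert d (X.erase z))
    have h4 := Finset.card_insert_le d (X.erase z)
    have h5 := Finset.card_erase_of_mem hz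
    have h6 := Finset.card_pos.mpr ⟨z, hz⟩
    omega
  · exact (h.set.dom r hr2).symm
  · exact hrc
  · exact hrd

end NApexGraphs.Dom.Helper70
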